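import Pool.Agent.H473.LW.Many6b

/-!
# The Lang-Waldschmidt inequality fails for power-many products of six powers

For every `m ≥ 6`, every `ε < 1 / 10` and every constant there is `δ > 0` such that for all large `X` more
than `X ^ δ` different products `P = a_1 ^ b_1 ⋯ a_m ^ b_m` of height `|b_1 ⋯ b_m a_1 ⋯ a_m| ≤ X`, with
pairwise coprime `a_i ≥ 2`, violate the inequality. The starting library has infinitely many such
products (`MP_4eb8d9_nt.SixFactors`, with `t = 2 ^ n`: a number of the order `log X`).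

The products are those of the library's family `t, t ± 12, t ± 6, t² - 84` with
`t = (c p_1 ⋯ p_s) ^ n`, where `c` runs through all large integers of a residue class; the factor
`t ^ e` is written `(c ^ n) ^ e (p_1 ^ n) ^ e ⋯`, so that the height is `O(c ^ (10 n + 1))`. In (iii)
`t = c (p_1 ⋯ p_s) ^ l` with `l` chosen in terms of `X` (of the order of `log X`).
-/

set_option autoImplicit false

open Filter

namespace Pool.Agent.Results.MP_e07dae_nt.ManyProducts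

/-- The product `P = a_1 ^ b_1 ⋯ a_m ^ b_m`. -/
noncomputable def P {m : ℕ} (a b : Fin m → ℤ) : ℝ := ∏ i, (a i : ℝ) ^ (b i)

/-- `B = max |b_i|`. -/
def B {m : ℕ} (b : Fin m → ℤ) : ℕ := Finset.univ.sup fun i => (b i).natAbs

/-- The height `H = |b_1 ⋯ b_m a_1 ⋯ a_m|`. -/
noncomputable def H {m : ℕ} (a b : Fin m → ℤ) : ℝ := (∏ i, |(b i : ℝ)|) * ∏ i, |(a i : ℝ)|

/-- The pairwise coprime integers `a_i ≥ 2` and the non-zero exponents `b_i` violate the inequality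
`|P - 1| ≥ C B ^ θ / H ^ (1 + ε)`, and `P ≠ 1`. -/
structure Violates {m : ℕ} (C θ ε : ℝ) (a b : Fin m → ℤ) : Prop where
  one_lt : ∀ i, 1 < a i
  coprime : Pairwise fun i j => IsCoprime (a i) (a j)
  ne_zero : ∀ i, b i ≠ 0
  ne_one : P a b ≠ 1
  lt : |P a b - 1| < C * (B b : ℝ) ^ θ / H a b ^ (1 + ε)

/-- The set of the values `P` of the products of `m` powers of height at most `X` which violate the
inequality. -/
def Exceptional (m : ℕ) (C θ ε X : ℝ) : Set ℝ :=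
  {x | ∃ a b : Fin m → ℤ, P a b = x ∧ Violates C θ ε a b ∧ H a b ≤ X}

/-- **Theorem.** Let `m ≥ 6`, `ε ≥ 0`, `C > 0`, `θ` real. (i) If `(10 n + 1) (1 + ε) < (10 + θ) n` for some
integer `n ≥ 1`, there is `κ > 0` such that for all large `X` at least `κ X ^ (1 / (10 n + 1))` different
numbers `P` are values of products of `m` powers of height at most `X` that violate the inequality.
(ii) If `10 ε < θ`, there is `δ > 0` such that for all large `X` there are at least `X ^ δ` such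
numbers. (iii) If `m ≥ 7`, there are for all large `X` at least `X ^ β` such numbers, for every
`0 ≤ β < 1 / 11` with `10 (1 + ε) < (10 + θ) (1 - β)`; for `θ = 1` these are the
`β < (1 - 10 ε) / 11`. -/
theorem result (m : ℕ) (hm : 6 ≤ m) (θ ε C : ℝ) (hε : 0 ≤ ε) (hC : 0 < C) :
    (∀ n : ℕ, 1 ≤ n → (10 * (n : ℝ) + 1) * (1 + ε) < (10 + θ) * n →
      ∃ κ : ℝ, 0 < κ ∧ ∀ᶠ X : ℝ in atTop, ∃ F : Finset ℝ,
        (F : Set ℝ) ⊆ Exceptional m C θ ε X ∧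
        κ * X ^ (1 / (10 * (n : ℝ) + 1)) ≤ (F.card : ℝ)) ∧
    (10 * ε < θ → ∃ δ : ℝ, 0 < δ ∧ ∀ᶠ X : ℝ in atTop, ∃ F : Finset ℝ,
        (F : Set ℝ) ⊆ Exceptional m C θ ε X ∧ X ^ δ ≤ (F.card : ℝ)) ∧
    (7 ≤ m → ∀ β : ℝ, 0 ≤ β → 11 * β < 1 → 10 * (1 + ε) < (10 + θ) * (1 - β) →
      ∀ᶠ X : ℝ in atTop, ∃ F : Finset ℝ,
        (F : Set ℝ) ⊆ Exceptional m C θ ε X ∧ X ^ β ≤ (F.card : ℝ)) := by
  have part1 : ∀ n : ℕ, 1 ≤ n → (10 * (n : ℝ) + 1) * (1 + ε) < (10 + θ) * n →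
      ∃ κ : ℝ, 0 < κ ∧ ∀ᶠ X : ℝ in atTop, ∃ F : Finset ℝ,
        (F : Set ℝ) ⊆ Exceptional m C θ ε X ∧
        κ * X ^ (1 / (10 * (n : ℝ) + 1)) ≤ (F.card : ℝ) := by
    intro n hn h
    obtain ⟨s, rfl⟩ : ∃ s, m = 5 + (s + 1) := ⟨m - 6, by omega⟩
    obtain ⟨κ, hκ, hev⟩ := Pool.Agent.H473.LW.many6 s n hn θ ε hε h C hC
    refine ⟨κ, hκ, ?_⟩
    filter_upwards [hev] with X hX
    obtain ⟨F, hF, hF'⟩ := hX
    have he : ((10 * n + 1 : ℕ) : ℝ) = 10 * (n : ℝ) + 1 := by push_cast; ring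
    rw [he] at hF
    refine ⟨F, fun x hx => ?_, hF⟩
    obtain ⟨a, b, h1, ⟨h2, h3, h4, h5, h6⟩, h7⟩ := hF' x hx
    exact ⟨a, b, h1, ⟨h2, h3, h4, h5, h6⟩, h7⟩
  refine ⟨part1, fun h => ?_, fun hm9 β hβ hβ1 hβ2 => ?_⟩
  swap
  · obtain ⟨s, rfl⟩ : ∃ s, m = 5 + (s + 2) := ⟨m - 7, by omega⟩
    filter_upwards [Pool.Agent.H473.LW.many6' s θ ε β hε hβ hβ1 hβ2 C hC] with X hX
    obtain ⟨F, hF, hF'⟩ := hX
    refine ⟨F, fun x hx => ?_, hF⟩
    obtain ⟨a, b, h1, ⟨h2, h3, h4, h5, h6⟩, h7⟩ := hF' x hx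
    exact ⟨a, b, h1, ⟨h2, h3, h4, h5, h6⟩, h7⟩
  -- a large `n`
  obtain ⟨n, hn⟩ := exists_nat_gt (max 1 ((1 + ε) / (θ - 10 * ε)))
  have hn1 : 1 < (n : ℝ) := (le_max_left _ _).trans_lt hn
  have hn2 : (1 + ε) / (θ - 10 * ε) < (n : ℝ) := (le_max_right _ _).trans_lt hn
  rw [div_lt_iff₀ (by linarith)] at hn2
  obtain ⟨κ, hκ, hev⟩ := part1 n (by exact_mod_cast hn1.le) (by nlinarith)
  have hS : 0 < 10 * (n : ℝ) + 1 := by positivity
  refine ⟨1 / (10 * (n : ℝ) + 1) / 2, by positivity, ?_⟩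
  have hlim : Tendsto (fun X : ℝ => X ^ (1 / (10 * (n : ℝ) + 1) / 2)) atTop atTop :=
    tendsto_rpow_atTop (by positivity)
  filter_upwards [hev, hlim.eventually_ge_atTop κ⁻¹, eventually_gt_atTop (0 : ℝ)] with X hX hX2 hX0
  obtain ⟨F, hF, hF'⟩ := hX
  refine ⟨F, hF, le_trans ?_ hF'⟩
  have h0 : 0 < X ^ (1 / (10 * (n : ℝ) + 1) / 2) := Real.rpow_pos_of_pos hX0 _
  have h1 : X ^ (1 / (10 * (n : ℝ) + 1))
      = X ^ (1 / (10 * (n : ℝ) + 1) / 2) * X ^ (1 / (10 * (n : ℝ) + 1) / 2) := by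
    rw [← Real.rpow_add hX0]
    congr 1
    ring
  rw [h1]
  have h2 : 1 ≤ κ * X ^ (1 / (10 * (n : ℝ) + 1) / 2) := by
    calc (1 : ℝ) = κ * κ⁻¹ := (mul_inv_cancel₀ hκ.ne').symm
      _ ≤ _ := mul_le_mul_of_nonneg_left hX2 hκ.le
  calc X ^ (1 / (10 * (n : ℝ) + 1) / 2) = 1 * X ^ (1 / (10 * (n : ℝ) + 1) / 2) := by ring
    _ ≤ (κ * X ^ (1 / (10 * (n : ℝ) + 1) / 2)) * X ^ (1 / (10 * (n : ℝ) + 1) / 2) :=
        mul_le_mul_of_nonneg_right h2 h0.le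
    _ = _ := by ring

end Pool.Agent.Results.MP_e07dae_nt.ManyProducts
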